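import Pool.Agent.Helper48.WeissJ.Goals

/-!
MP_6b0aee_an, packet TH: choice of a threshold.
-/

namespace Pool.Agent.Helper89.WeissJ

open Set Filter Topology MeasureTheory
open Pool.Agent.Helper48.WeissJ

universe u v

/-- The logarithmic penalty. -/
noncomputable def lam (w r : ℝ) : ℝ := max 0 (Real.log w - Real.log r)

theorem lam_nonneg (w r : ℝ) : 0 ≤ lam w r := le_max_left _ _

theorem measurable_lam (w : ℝ) : Measurable (lam w) :=
  measurable_const.max (measurable_const.sub Real.measurable_log)

theorem exp_neg_lam {w r : ℝ} (hw : 0 < w) (hr : r ≠ 0) :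
    Real.exp (-lam w r) = min 1 (|r| / w) := by
  have hr' : 0 < |r| := abs_pos.2 hr
  unfold lam
  rw [← Real.log_abs r]
  rcases le_total |r| w with h | h
  · have h1 : Real.log |r| ≤ Real.log w := Real.log_le_log hr' h
    rw [max_eq_right (by linarith), neg_sub, Real.exp_sub, Real.exp_log hr', Real.exp_log hw,
      min_eq_right]
    rw [div_le_one hw]
    exact h
  · have h1 : Real.log w ≤ Real.log |r| := Real.log_le_log hw h
    rw [max_eq_left (by linarith), neg_zero, Real.exp_zero, min_eq_left]
    rw [one_le_div hw]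
    exact h

theorem lam_ae (w : ℝ) (hw : 0 < w) :
    lam w =ᵐ[volume] (Ioc (-w) w).indicator (fun r => Real.log w - Real.log r) := by
  have h0 : ({0} : Set ℝ)ᶜ ∈ ae (volume : Measure ℝ) :=
    compl_mem_ae_iff.mpr (measure_singleton 0)
  have h1 : ({-w} : Set ℝ)ᶜ ∈ ae (volume : Measure ℝ) :=
    compl_mem_ae_iff.mpr (measure_singleton (-w))
  filter_upwards [h0, h1] with r hr hr1
  have hr' : 0 < |r| := abs_pos.2 hr
  have hr1' : r ≠ -w := hr1
  unfold lam
  by_cases h : r ∈ Ioc (-w) w
  · rw [indicator_of_mem h, max_eq_right]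
    have h2 : Real.log |r| ≤ Real.log w :=
      Real.log_le_log hr' (abs_le.2 ⟨h.1.le, h.2⟩)
    rw [Real.log_abs] at h2
    linarith
  · rw [indicator_of_notMem h, max_eq_left]
    have h3 : w ≤ |r| := by
      by_contra hlt
      push Not at hlt
      exact h ⟨(abs_lt.1 hlt).1, (abs_lt.1 hlt).2.le⟩
    have h2 : Real.log w ≤ Real.log |r| := Real.log_le_log hw h3
    rw [Real.log_abs] at h2
    linarith

theorem integrable_lam {w : ℝ} (hw : 0 < w) : Integrable (lam w) := by
  rw [integrable_congr (lam_ae w hw), integrable_indicator_iff measurableSet_Ioc]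
  have h1 : IntervalIntegrable (fun r => Real.log w - Real.log r) volume (-w) w :=
    intervalIntegrable_const.sub intervalIntegral.intervalIntegrable_log'
  rw [intervalIntegrable_iff_integrableOn_Ioc_of_le (by linarith)] at h1
  exact h1

theorem integral_lam {w : ℝ} (hw : 0 < w) : ∫ r, lam w r = 2 * w := by
  rw [integral_congr_ae (lam_ae w hw), integral_indicator measurableSet_Ioc,
    ← intervalIntegral.integral_of_le (by linarith), intervalIntegral.integral_sub
      intervalIntegrable_const intervalIntegral.intervalIntegrable_log', integral_log,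
    intervalIntegral.integral_const, Real.log_neg_eq_log, smul_eq_mul]
  ring

section

variable {ι : Type u} {J : Type v} [Fintype ι] [Fintype J]

/-- The total penalty. -/
noncomputable def pen (w : ℝ) (c : ι → ℝ) (t : ι → J → ℝ) (κ : ℝ) : ℝ :=
  ∑ i, c i * ∑ l, lam w (t i l - κ)

theorem pen_nonneg (w : ℝ) {c : ι → ℝ} (hc : ∀ i, 0 ≤ c i) (t : ι → J → ℝ) (κ : ℝ) :
    0 ≤ pen w c t κ :=
  Finset.sum_nonneg fun i _ => mul_nonneg (hc i) (Finset.sum_nonneg fun _ _ => lam_nonneg _ _)

theorem measurable_pen (w : ℝ) (c : ι → ℝ) (t : ι → J → ℝ) : Measurable (pen w c t) := by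
  unfold pen
  apply Finset.measurable_fun_sum
  intro i _
  apply Measurable.const_mul
  apply Finset.measurable_fun_sum
  intro l _
  exact (measurable_lam w).comp (measurable_const.sub measurable_id)

theorem integrable_pen {w : ℝ} (hw : 0 < w) (c : ι → ℝ) (t : ι → J → ℝ) :
    Integrable (pen w c t) := by
  unfold pen
  apply integrable_finsetSum
  intro i _
  apply Integrable.const_mul
  apply integrable_finsetSum
  intro l _
  exact (integrable_lam hw).comp_sub_left (t i l)

theorem integral_pen {w : ℝ} (hw : 0 < w) (c : ι → ℝ) (t : ι → J → ℝ) :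
    ∫ κ, pen w c t κ = (∑ i, c i) * (Fintype.card J * (2 * w)) := by
  unfold pen
  rw [integral_finsetSum]
  · rw [Finset.sum_mul]
    apply Finset.sum_congr rfl
    intro i _
    rw [integral_const_mul, integral_finsetSum]
    · congr 1
      rw [Finset.sum_congr rfl (fun l _ => ?_), Finset.sum_const, Finset.card_univ, nsmul_eq_mul]
      rw [integral_sub_left_eq_self (fun x => lam w x) volume (t i l)]
      exact integral_lam hw
    · intro l _
      exact (integrable_lam hw).comp_sub_left (t i l)
  · intro i _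
    apply Integrable.const_mul
    apply integrable_finsetSum
    intro l _
    exact (integrable_lam hw).comp_sub_left (t i l)

theorem low {w : ℝ} (hw : 0 < w) {c : ι → ℝ} (hc : ∀ i, 0 ≤ c i) (t : ι → J → ℝ) (κ m : ℝ)
    (hκ : ∀ i l, t i l ≠ κ) (hm : pen w c t κ ≤ m * ∑ i, c i) :
    Real.exp (-m) * ∑ i, c i ≤ ∑ i, c i * ∏ l, min 1 (|t i l - κ| / w) := by
  have h1 : ∀ i, Real.exp (-m) * (c i * (m + 1) - c i * ∑ l, lam w (t i l - κ)) ≤
      c i * ∏ l, min 1 (|t i l - κ| / w) := by
    intro i
    have h2 : ∏ l, min 1 (|t i l - κ| / w) = Real.exp (-∑ l, lam w (t i l - κ)) := by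
      rw [← Finset.sum_neg_distrib, Real.exp_sum]
      apply Finset.prod_congr rfl
      intro l _
      rw [exp_neg_lam hw (sub_ne_zero.2 (hκ i l))]
    rw [h2]
    have h3 := Real.add_one_le_exp (m - ∑ l, lam w (t i l - κ))
    have h4 : Real.exp (-∑ l, lam w (t i l - κ)) =
        Real.exp (-m) * Real.exp (m - ∑ l, lam w (t i l - κ)) := by
      rw [← Real.exp_add]
      congr 1
      ring
    rw [h4]
    have h5 : Real.exp (-m) * (m - ∑ l, lam w (t i l - κ) + 1) ≤
        Real.exp (-m) * Real.exp (m - ∑ l, lam w (t i l - κ)) :=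
      mul_le_mul_of_nonneg_left h3 (Real.exp_pos _).le
    have h6 := mul_le_mul_of_nonneg_left h5 (hc i)
    linarith [h6]
  have h7 := Finset.sum_le_sum fun i (_ : i ∈ Finset.univ) => h1 i
  rw [← Finset.mul_sum, Finset.sum_sub_distrib, ← Finset.sum_mul] at h7
  refine le_trans ?_ h7
  apply mul_le_mul_of_nonneg_left _ (Real.exp_pos _).le
  have : pen w c t κ = ∑ i, c i * ∑ l, lam w (t i l - κ) := rfl
  rw [← this]
  linarith

end

theorem th : TH.{u, v} := by
  intro ι J _ _ n hJ c hc hS t a b ε hab hε
  by_contra hno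
  push Not at hno
  set w : ℝ := ε * (b - a) / (4 * (n + 1)) with hwdef
  have hn1 : (0 : ℝ) < 4 * (n + 1) := by positivity
  have hw : 0 < w := by
    rw [hwdef]
    exact div_pos (mul_pos hε (by linarith)) hn1
  set Z : Set ℝ := ⋃ g : ℕ, ⋃ i : ι g, ⋃ l : J g, {t g i l} with hZ
  have hZc : Z.Countable := by
    apply countable_iUnion
    intro g
    have := Finite.to_countable (α := ι g)
    have := Finite.to_countable (α := J g)
    exact countable_iUnion fun i => countable_iUnion fun l => countable_singleton _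
  have hZ0 : Zᶜ ∈ ae (volume : Measure ℝ) := compl_mem_ae_iff.mpr (hZc.measure_zero _)
  set F : ℕ → ℝ → ENNReal := fun g κ => ENNReal.ofReal (pen w (c g) (t g) κ / (g * ∑ i, c g i))
    with hF
  have hmeas : ∀ g, Measurable (F g) := fun g =>
    ((measurable_pen w (c g) (t g)).div_const _).ennreal_ofReal
  -- pointwise
  have hpt : ∀ κ ∈ Ioo a b, κ ∉ Z → ENNReal.ofReal ε ≤ liminf (fun g => F g κ) atTop := by
    intro κ hκ hκZ
    refine le_liminf_of_le (by isBoundedDefault) ?_
    have h1 := hno κ hκ w hw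
    filter_upwards [h1, eventually_gt_atTop 0] with g hg hg0
    apply ENNReal.ofReal_le_ofReal
    have hg0' : (0 : ℝ) < g := by exact_mod_cast hg0
    rw [le_div_iff₀ (mul_pos hg0' (hS g))]
    by_contra hlt
    push Not at hlt
    refine absurd hg (not_lt.2 ?_)
    apply low hw (hc g) (t g) κ (ε * g)
    · intro i l hil
      apply hκZ
      rw [hZ, mem_iUnion]
      refine ⟨g, ?_⟩
      rw [mem_iUnion]
      refine ⟨i, ?_⟩
      rw [mem_iUnion]
      exact ⟨l, hil.symm⟩
    · linarith
  -- the integrals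
  have hint : ∀ g : ℕ, 0 < g → ∫⁻ κ in Ioo a b, F g κ ≤ ENNReal.ofReal (2 * w * n) := by
    intro g hg0
    have hg0' : (0 : ℝ) < g := by exact_mod_cast hg0
    calc ∫⁻ κ in Ioo a b, F g κ ≤ ∫⁻ κ, F g κ := setLIntegral_le_lintegral _ _
      _ = ENNReal.ofReal (∫ κ, pen w (c g) (t g) κ / (g * ∑ i, c g i)) := by
          rw [ofReal_integral_eq_lintegral_ofReal]
          · exact (integrable_pen hw _ _).div_const _
          · exact Eventually.of_forall fun κ =>
              div_nonneg (pen_nonneg w (hc g) (t g) κ) (mul_pos hg0' (hS g)).le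
      _ ≤ ENNReal.ofReal (2 * w * n) := by
          apply ENNReal.ofReal_le_ofReal
          rw [integral_div, integral_pen hw, div_le_iff₀ (mul_pos hg0' (hS g))]
          have h1 : (Fintype.card (J g) : ℝ) ≤ n * g := by exact_mod_cast hJ g
          have h2 : (Fintype.card (J g) : ℝ) * (2 * w) ≤ n * g * (2 * w) :=
            mul_le_mul_of_nonneg_right h1 (by linarith)
          have h3 := mul_le_mul_of_nonneg_left h2 (hS g).le
          linarith
  have hfat : ∫⁻ κ in Ioo a b, liminf (fun g => F g κ) atTop ≤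
      liminf (fun g => ∫⁻ κ in Ioo a b, F g κ) atTop := lintegral_liminf_le hmeas
  have hup : liminf (fun g => ∫⁻ κ in Ioo a b, F g κ) atTop ≤ ENNReal.ofReal (2 * w * n) := by
    apply liminf_le_of_frequently_le'
    apply Eventually.frequently
    filter_upwards [eventually_gt_atTop 0] with g hg
    exact hint g hg
  have hlo : ENNReal.ofReal ε * ENNReal.ofReal (b - a) ≤
      ∫⁻ κ in Ioo a b, liminf (fun g => F g κ) atTop := by
    rw [← Real.volume_Ioo, ← setLIntegral_const]
    apply lintegral_mono_ae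
    refine (ae_restrict_iff' measurableSet_Ioo).2 ?_
    filter_upwards [hZ0] with κ hκ hκ2
    exact hpt κ hκ2 hκ
  have hfin := hlo.trans (hfat.trans hup)
  rw [← ENNReal.ofReal_mul hε.le, ENNReal.ofReal_le_ofReal_iff (by positivity)] at hfin
  have h9 : 2 * w * n < ε * (b - a) := by
    have h10 : w * (4 * (n + 1)) = ε * (b - a) := by
      rw [hwdef]
      exact div_mul_cancel₀ _ hn1.ne'
    nlinarith [hw, (Nat.cast_nonneg n : (0 : ℝ) ≤ n)]
  linarith

end Pool.Agent.Helper89.WeissJ
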